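import Pool.Agent.N980.WS.Dfn
import Pool.Agent.N980.WQ.Main2
import Pool.Agent.N980.WQ.Fin3
import Pool.Agent.N980.WQ.Small

/-!
The theorem.
-/

open MeasureTheory Set Filter Topology
open scoped ContDiff

set_option linter.unusedVariables false

namespace Pool.Agent.N980.WS

variable {R : ℕ} {ε G ν T : ℝ} {u : ℝ → V → V} {p : ℝ → V → ℝ}

theorem pk_eq (ε : ℝ) (R n : ℕ) : pk ε R n = WQ.pk R (3 * ε / 4) n := by
  funext x
  show _ = WP.pF (R ^ n) (WP.Lw R (3 * ε / 4) n) x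
  unfold WP.pF WP.pf
  push_cast
  rfl

theorem qk_eq (ε : ℝ) (R n : ℕ) : qk ε R n = WQ.qk R (3 * ε / 4) n := by
  unfold qk
  rw [pk_eq]
  rfl

theorem A_eq (ε G : ℝ) (R : ℕ) (w v : V → V) : A ε G R w v = WQ.AP G (2 + ε / 4) (3 * ε / 4) R w v := by
  funext x
  unfold A WQ.AP
  simp only [pk_eq, qk_eq]
  rfl

theorem AP_smul (s G σ κ : ℝ) (R : ℕ) (w v : V → V) : WQ.AP (s * G) σ κ R w v = s • WQ.AP G σ κ R w v := by
  funext x
  rw [Pi.smul_apply]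
  unfold WQ.AP
  rw [← tsum_const_smul'']
  refine tsum_congr fun n => ?_
  module

/-- The properties of `A` for positive `G`. -/
theorem alt_pos (h : WQ.Props ε G R) : Alt ε (A ε G R) := by
  have e : ∀ w v, A ε G R w v = WQ.Aop ε G R w v := fun w v => A_eq ε G R w v
  obtain ⟨a1, a2, a3, a4, a5, a6, a7, a8, a9⟩ := h
  refine ⟨?_, ?_, ?_, ?_, ?_, ?_, ?_, ?_, ?_⟩
  · intro w v hw hv
    rw [e]; exact a1 w v hw hv
  · intro w v hw hv x
    rw [e]; exact a2 w v hw hv x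
  · intro w v hw hv i
    rw [e]; exact a3 w v hw hv i
  · intro w w' v hw hw' hv
    rw [e, e, e]; exact a4 w w' v hw hw' hv
  · intro r w v hw hv
    rw [e, e]; exact a5 r w v hw hv
  · intro w v hw hv
    rw [e, e]; exact a6 w v hw hv
  · intro w v z hw hv hz
    rw [e, e]; exact a7 w v z hw hv hz
  · obtain ⟨C, hC⟩ := a8
    refine ⟨C, fun p₁ p₂ p₃ h1 h2 h3 hp M hM w v z hw hv hz hb => ?_⟩
    rw [e]; exact hC p₁ p₂ p₃ h1 h2 h3 hp M hM w v z hw hv hz hb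
  · obtain ⟨C, hC⟩ := a9
    refine ⟨C, fun s₁ s₂ s₃ h1 h2 h3 hs w v z hw hv hz => ?_⟩
    rw [e]; exact hC s₁ s₂ s₃ h1 h2 h3 hs w v z hw hv hz

theorem ip_smul' (r : ℝ) (u w : V → V) : ip (r • u) w = r * ip u w := WP.ip_smul r u w

theorem alt_smul {F F' : (V → V) → (V → V) → V → V} {s : ℝ} (hs : |s| = 1) (h : Alt ε F)
    (he : ∀ w v, F' w v = s • F w v) : Alt ε F' := by
  obtain ⟨a1, a2, a3, a4, a5, a6, a7, a8, a9⟩ := h
  have ab : ∀ w v z, |ip (F' w v) z| = |ip (F w v) z| := by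
    intro w v z
    rw [he, ip_smul', abs_mul, hs, one_mul]
  refine ⟨?_, ?_, ?_, ?_, ?_, ?_, ?_, ?_, ?_⟩
  · intro w v hw hv
    rw [he]
    have h1 : NU.SPV (F w v) := a1 w v hw hv
    exact h1.smul s
  · intro w v hw hv x
    rw [he]
    have h1 : NU.SPV (F w v) := a1 w v hw hv
    have h2 : NU.dv (s • F w v) x = s * NU.dv (F w v) x := WP.dv_smul h1 s x
    have h3 : NU.dv (F w v) x = 0 := a2 w v hw hv x
    show NU.dv (s • F w v) x = 0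
    rw [h2, h3, mul_zero]
  · intro w v hw hv i
    rw [he]
    have h1 : ∫ x in cube, (s • F w v) x i = s * ∫ x in cube, F w v x i := by
      rw [← integral_const_mul]
      rfl
    rw [h1, a3 w v hw hv i, mul_zero]
  · intro w w' v hw hw' hv
    rw [he, he, he, a4 w w' v hw hw' hv, smul_add]
  · intro r w v hw hv
    rw [he, he, a5 r w v hw hv, smul_comm]
  · intro w v hw hv
    rw [he, he, a6 w v hw hv, smul_neg]
  · intro w v z hw hv hz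
    have e2 : ip v (s • F w z) = s * ip v (F w z) := by
      have h1 : ip v (s • F w z) = ip (s • F w z) v := NU.ip_comm v (s • F w z)
      have h2 : ip v (F w z) = ip (F w z) v := NU.ip_comm v (F w z)
      rw [h1, h2, ip_smul']
    rw [he, he, ip_smul', e2, a7 w v z hw hv hz]
    ring
  · obtain ⟨C, hC⟩ := a8
    refine ⟨C, fun p₁ p₂ p₃ h1 h2 h3 hp M hM w v z hw hv hz hb => ?_⟩
    rw [ab]; exact hC p₁ p₂ p₃ h1 h2 h3 hp M hM w v z hw hv hz hb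
  · obtain ⟨C, hC⟩ := a9
    refine ⟨C, fun s₁ s₂ s₃ h1 h2 h3 hs w v z hw hv hz => ?_⟩
    rw [ab]; exact hC s₁ s₂ s₃ h1 h2 h3 hs w v z hw hv hz

theorem Sol.to (h : Sol ν (A ε G R) T u p) : WP.Sol ν (WQ.Kop2 ε G R) T u p := by
  refine ⟨h.smooth_u, h.smooth_p, h.per_u, h.per_p, h.divfree, fun t ht x i => ?_⟩
  have h1 := h.momentum t ht x i
  rw [A_eq] at h1
  exact h1

theorem Sol.from (h : WP.Sol ν (WQ.Kop2 ε G R) T u p) : Sol ν (A ε G R) T u p := by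
  refine ⟨h.smooth_u, h.smooth_p, h.per_u, h.per_p, h.divfree, fun t ht x i => ?_⟩
  rw [A_eq]
  exact h.momentum t ht x i

theorem PD_of (hε : 0 < ε) (hε1 : ε ≤ 4 / 5) (hR : 10 ^ 16 ≤ (R : ℝ) ^ ε) : WQ.PD R (2 + ε / 4) (3 * ε / 4) := by
  have hRn : (0 : ℝ) ≤ R := Nat.cast_nonneg R
  have hR0 : (0 : ℝ) < R := by
    rcases hRn.lt_or_eq with h | h
    · exact h
    · rw [← h, Real.zero_rpow hε.ne'] at hR
      norm_num at hR
  have hR1 : 1 ≤ R := by exact_mod_cast hR0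
  have hR1' : (1 : ℝ) ≤ R := by exact_mod_cast hR1
  have e1 : 10 ^ 4 ≤ (R : ℝ) ^ (ε / 4) := by
    have h1 : (R : ℝ) ^ (ε / 4) = ((R : ℝ) ^ ε) ^ (1 / 4 : ℝ) := by
      rw [← Real.rpow_mul hRn]; congr 1; ring
    have h2 : ((10 : ℝ) ^ 16) ^ (1 / 4 : ℝ) = 10 ^ 4 := by
      rw [← Real.rpow_natCast 10 16, ← Real.rpow_mul (by norm_num), ← Real.rpow_natCast 10 4]
      congr 1; push_cast; norm_num
    rw [h1, ← h2]
    exact Real.rpow_le_rpow (by positivity) hR (by norm_num)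
  have e2 : (R : ℝ) ^ (ε / 4) * (R : ℝ) ^ (ε / 4) = (R : ℝ) ^ (ε / 2) := by
    rw [← Real.rpow_add hR0]; congr 1; ring
  have e3 : 10 ^ 5 ≤ (R : ℝ) ^ (ε / 2) := by
    rw [← e2]
    calc (10 : ℝ) ^ 5 ≤ 10 ^ 4 * 10 ^ 4 := by norm_num
      _ ≤ _ := by gcongr
  have e4 : (R : ℝ) ^ (ε / 2) ≤ (R : ℝ) ^ (3 * ε / 4) :=
    Real.rpow_le_rpow_of_exponent_le hR1' (by linarith)
  have e5 : (R : ℝ) ^ (3 * ε / 4) ≤ (R : ℝ) ^ (1 : ℝ) :=
    Real.rpow_le_rpow_of_exponent_le hR1' (by linarith)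
  rw [Real.rpow_one] at e5
  have e6 : (R : ℝ) ^ (2 + ε / 4) = (R : ℝ) ^ 2 * (R : ℝ) ^ (ε / 4) := by
    rw [Real.rpow_add hR0, ← Real.rpow_natCast _ 2]
    push_cast
    rfl
  refine ⟨⟨by linarith, by linarith, by linarith, by linarith, ?_, ?_, by linarith⟩, by linarith, ?_⟩
  · have : (4 : ℝ) ≤ R := by
      have : (10 : ℝ) ^ 5 ≤ R := by linarith
      linarith [show (4 : ℝ) ≤ 10 ^ 5 by norm_num]
    exact_mod_cast this
  · rw [e6, mul_comm]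
    gcongr
  · have : 2 - (2 + ε / 4) + 3 * ε / 4 = ε / 2 := by ring
    rw [this]
    exact e3

/-- The theorem. -/
theorem main {ε : ℝ} (hε : 0 < ε) (hε1 : ε ≤ 4 / 5) {R : ℕ} (hR : 10 ^ 16 ≤ (R : ℝ) ^ ε) {G : ℝ} (hG : G ≠ 0) :
    Alt ε (A ε G R) ∧ ∀ ν : ℝ, 0 < ν →
      (∀ v : V → V, SPV v → (∀ x, dv v x = 0) →
        ∃ T > 0, ∃ (u : ℝ → V → V) (p : ℝ → V → ℝ), u 0 = v ∧ Sol ν (A ε G R) T u p) ∧
      (∃ δ > 0, ∀ v : V → V, SPV v → (∀ x, dv v x = 0) → wn v ≤ δ →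
        ∀ T > 0, ∃ (u : ℝ → V → V) (p : ℝ → V → ℝ), u 0 = v ∧ Sol ν (A ε G R) T u p) ∧
      (∀ (T : ℝ) (u : ℝ → V → V) (p : ℝ → V → ℝ), Sol ν (A ε G R) T u p →
        (∀ t ∈ Ico 0 T, energy (u t) + 2 * ν * ∫ s in (0 : ℝ)..t, dissip (u s) = energy (u 0)) ∧
        (∀ t ∈ Ico 0 T, ip (u t) (curl (u t)) + 2 * ν * ∫ s in (0 : ℝ)..t, ip (curl (u s)) (curl (curl (u s)))
          = ip (u 0) (curl (u 0))) ∧
        ∀ (u' : ℝ → V → V) (p' : ℝ → V → ℝ), Sol ν (A ε G R) T u' p' → u 0 = u' 0 → ∀ t ∈ Ico 0 T, u t = u' t) ∧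
      ∀ v : V → V, SPV v → (∀ x, dv v x = 0) → ∀ η > 0,
        ∃ w : V → V, SPV w ∧ (∀ x, dv w x = 0) ∧ energy (w - v) ≤ η ^ 2 ∧ ∃ r > 0,
          ∀ w' : V → V, SPV w' → (∀ x i, |w' x i - w x i| ≤ r) →
            ∀ (u : ℝ → V → V) (p : ℝ → V → ℝ), u 0 = w' → ¬Sol ν (A ε G R) η u p := by
  have h := PD_of hε hε1 hR
  obtain ⟨G0, hG0, hGe⟩ : ∃ G0 : ℝ, G0 ≠ 0 ∧ G = G0 := ⟨G, hG, rfl⟩
  subst hGe
  -- the sign
  set s : ℝ := G / |G| with hs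
  set G1 : ℝ := |G| with hGd
  have hG1 : 0 < G1 := abs_pos.2 hG
  have hs1 : |s| = 1 := by
    rw [hs, abs_div, abs_abs, div_self hG1.ne']
  have hGs : G = s * G1 := by
    rw [hs, div_mul_cancel₀ _ hG1.ne']
  set P := h.pc.pm hG1 with hP
  set Tt : Fin 2 × Fin 6 → WP.Tr P.R (WP.wd P.L) := WQ.TW fun i =>
    ((![WQ.kD1 P, WQ.kD2 P] : Fin 2 → WQ.W3 P.R (WP.wd P.L)) i).sc s hs1 with hTt
  set Ks : (V → V) → (V → V) → V → V := WP.KQ Tt with hKs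
  have hB : WP.Bil Ks := WQ.TW_bil P.wh.wd _
  have hK : ∀ v, NU.SPV v → Ks v v = s • WP.KQ (WQ.kT P) v v := fun v hv =>
    WQ.TW_sc P.wh.wd _ hs1 hv hv
  have hc : ∀ v, NU.SPV v → WQ.Kop2 ε G R v v = Ks v v := by
    intro v hv
    rw [hK v hv, ← WQ.Kop2_eq h.pc hG1 hv hv, hGs]
    exact AP_smul s G1 _ _ R (NU.curl v) v
  have halt0 : Alt ε (A ε G1 R) := alt_pos (WQ.props h.pc hG1)
  have halt : Alt ε (A ε G R) := alt_smul hs1 halt0 fun w v => by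
    rw [A_eq, A_eq, hGs]
    exact AP_smul s G1 _ _ R w v
  refine ⟨halt, fun ν hν => ⟨?_, ?_, ?_, ?_⟩⟩
  · intro v hv hdv
    obtain ⟨T, hT, u, p, h0, hs⟩ := WP.local_existence Tt P.wh.wd hν hv hdv
    exact ⟨T, hT, u, p, h0, Sol.from (hs.congr fun v hv => (hc v hv).symm)⟩
  · set g : ℝ := WQ.gu Tt (4 * Real.pi ^ 2 * ν) with hg
    have hg0 : 0 ≤ g := WQ.gu_nonneg Tt P.wh.wd (by positivity)
    refine ⟨1 / (8 * (g + 1)), by positivity, fun v hv hdv hsm T hT => ?_⟩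
    have h1 : 8 * g * (CB.Sm 3 fun k => ‖NU.fco v k‖) ≤ 1 := by
      have h2 : (CB.Sm 3 fun k => ‖NU.fco v k‖) ≤ 1 / (8 * (g + 1)) := hsm
      calc 8 * g * (CB.Sm 3 fun k => ‖NU.fco v k‖) ≤ 8 * g * (1 / (8 * (g + 1))) := by gcongr
        _ = g / (g + 1) := by field_simp
        _ ≤ 1 := by rw [div_le_one (by positivity)]; linarith
    obtain ⟨u, p, h0, hs⟩ := WQ.small_existence Tt P.wh.wd hν hv hdv h1 hT
    exact ⟨u, p, h0, Sol.from (hs.congr fun v hv => (hc v hv).symm)⟩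
  · intro T u p hs
    have hs1 : WP.Sol ν Ks T u p := (Sol.to hs).congr hc
    refine ⟨fun t ht => hs1.energy_eq hB.opr hν ht, fun t ht => ?_, fun u' p' hs' h0 => ?_⟩
    · refine WQ.hel_eq hs1 hB.opr (fun v hv => ?_) ht
      rw [← hc v hv]
      have e0 : WQ.Kop2 ε G R v v = A ε G R (curl v) v := (A_eq ε G R (curl v) v).symm
      have e1 := halt.anti (curl v) v hv.curl hv
      have e2 := halt.skew v (curl v) (curl v) hv hv.curl hv.curl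
      have e3 : ip (-A ε G R v (curl v)) (curl v) = -ip (A ε G R v (curl v)) (curl v) := by
        have := ip_smul' (-1) (A ε G R v (curl v)) (curl v)
        rw [neg_one_smul] at this
        rw [this]; ring
      have e4 : ip (curl v) (A ε G R v (curl v)) = ip (A ε G R v (curl v)) (curl v) := NU.ip_comm _ _
      show ip (WQ.Kop2 ε G R v v) (curl v) = 0
      rw [e0, e1, e3]
      rw [e4] at e2
      linarith
    · exact WP.uniqueness hB hν hs1 ((Sol.to hs').congr hc) (hs1.KQ_wb _ P.wh.wd) h0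
  · intro v hv hdv η hη
    obtain ⟨w, h1, h2, h3, r, hr, h4⟩ := WQ.dense_blowupS h (by linarith) hG1 hs1 hB.opr hK hν hv hdv hη
    exact ⟨w, h1, h2, h3, r, hr, fun w' hw' hcl u p h0 hs => h4 w' hw' hcl u p h0 ((Sol.to hs).congr hc)⟩

end Pool.Agent.N980.WS
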